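import Pool.Agent.J4.H16.SD.Design

/-!
# MP_9415b6_co, Q2: subset-sum 1-designs on the nonzero elements of `ℤ/n`, `k` near `0` or near `n - 1`

Let `p` be the least prime factor of `n ≥ 2`. For all `k` with `1 ≤ k ≤ p` or `n - 1 - p ≤ k ≤ n - 1`, and all
`x`, the theorem decides when `(ℤ/n ∖ {0}, B_k^{x,*})` is a 1-design: exactly if `x` is the sum of all
elements of `ℤ/n` and either `k = n - 1`, or `2 ≤ k ≤ n - 3` and `k < p` or `k ≥ n - p`. In particular
there are such 1-designs for all odd `n ≥ 5`, also composite ones, and the question is answered for all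
`k` and `x` if `n` is prime.
-/

set_option autoImplicit false

open Finset

namespace Pool.Agent.Results.MP_9415b6_co.StarredDesignsNearEnds

/-- `B_k^{x,*}`: the `k`-element subsets of `ℤ/n ∖ {0}` with sum `x`. -/
def Blocks (n k : ℕ) [NeZero n] (x : ZMod n) : Finset (Finset (ZMod n)) :=
  (((univ : Finset (ZMod n)).erase 0).powersetCard k).filter (fun T => ∑ t ∈ T, t = x)

/-- `(ℤ/n ∖ {0}, B_k^{x,*})` is a 1-design: there is a block, and every point `y ≠ 0` lies in the same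
number of blocks. -/
def IsOneDesign (n k : ℕ) [NeZero n] (x : ZMod n) : Prop :=
  (Blocks n k x).Nonempty ∧
    ∃ r : ℕ, ∀ y : ZMod n, y ≠ 0 → ((Blocks n k x).filter (fun T => y ∈ T)).card = r

theorem result (n k : ℕ) [NeZero n] (hn : 2 ≤ n) (hk : 1 ≤ k) (hkn : k ≤ n - 1)
    (h : k ≤ n.minFac ∨ n - 1 - n.minFac ≤ k) (x : ZMod n) :
    IsOneDesign n k x ↔ x = ∑ t : ZMod n, t ∧
      (k = n - 1 ∨ 2 ≤ k ∧ k ≤ n - 3 ∧ (k < n.minFac ∨ n - n.minFac ≤ k)) := by
  have h1 : IsOneDesign n k x ↔ Pool.Agent.J4.H16.SD.IsOneDesign n k x := Iff.rfl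
  rw [h1, Pool.Agent.J4.H16.SD.main hn hk (by omega) (by omega)]
  have h2 : (k = n - 1 ∨ (2 ≤ k ∧ k + 3 ≤ n ∧ (k < n.minFac ∨ n - 1 - k < n.minFac))) ↔
      (k = n - 1 ∨ 2 ≤ k ∧ k ≤ n - 3 ∧ (k < n.minFac ∨ n - n.minFac ≤ k)) := by
    omega
  rw [h2]

end Pool.Agent.Results.MP_9415b6_co.StarredDesignsNearEnds
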